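import Pool.Agent.TH181.MW.HuaB

/-! # counting solutions of two equations by a double integral -/

set_option autoImplicit false

open Finset MeasureTheory

namespace Pool.Agent.Y980.MW

open Pool.Agent.W928.MW (e sm e_add e_norm e_sub_re e_cont sm_le)
open Pool.Agent.TH181.MW (tup e_sum e_conj)

theorem e_re (x : ℝ) : (e x).re = Real.cos (2 * Real.pi * x) := by
  unfold Pool.Agent.W928.MW.e
  have h : 2 * (Real.pi : ℂ) * Complex.I * (x : ℂ) = ((2 * Real.pi * x : ℝ) : ℂ) * Complex.I := by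
    push_cast; ring
  rw [h, Complex.exp_ofReal_mul_I_re]

theorem cos_int (c : ℝ) (n : ℤ) : ∫ x in (0 : ℝ)..1, Real.cos (2 * Real.pi * (c + x * (n : ℝ))) =
    if n = 0 then Real.cos (2 * Real.pi * c) else 0 := by
  split_ifs with hn
  · simp [hn]
  · have hn' : (n : ℝ) ≠ 0 := by exact_mod_cast hn
    have hc : 2 * Real.pi * (n : ℝ) ≠ 0 := by positivity
    have h1 : ∀ x ∈ Set.uIcc (0 : ℝ) 1, HasDerivAt
        (fun y : ℝ => Real.sin (2 * Real.pi * (c + y * (n : ℝ))) / (2 * Real.pi * (n : ℝ)))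
        (Real.cos (2 * Real.pi * (c + x * (n : ℝ)))) x := by
      intro x _
      have h2 : HasDerivAt (fun y : ℝ => 2 * Real.pi * (c + y * (n : ℝ))) (2 * Real.pi * (n : ℝ)) x := by
        have h3 : HasDerivAt (fun y : ℝ => c + y * (n : ℝ)) (1 * (n : ℝ)) x :=
          ((hasDerivAt_id x).mul_const (n : ℝ)).const_add c
        rw [one_mul] at h3
        exact h3.const_mul (2 * Real.pi)
      have h4 := (h2.sin).div_const (2 * Real.pi * (n : ℝ))
      rwa [mul_div_assoc, div_self hc, mul_one] at h4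
    rw [intervalIntegral.integral_eq_sub_of_hasDerivAt h1 (by apply Continuous.intervalIntegrable; fun_prop)]
    have h5 : 2 * Real.pi * (c + 1 * (n : ℝ)) = 2 * Real.pi * (c + 0 * (n : ℝ)) + (n : ℝ) * (2 * Real.pi) := by ring
    rw [h5, Real.sin_add_int_mul_two_pi, sub_self]

theorem inner {ι : Type*} (S : Finset ι) (a b : ι → ℤ) (t : ℝ) :
    ∫ ξ in (0 : ℝ)..1, (∑ i ∈ S, e (t * (a i : ℝ) + ξ * (b i : ℝ))).re =
      ∑ i ∈ S.filter (fun i => b i = 0), Real.cos (2 * Real.pi * (t * (a i : ℝ))) := by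
  have h1 : ∀ ξ : ℝ, (∑ i ∈ S, e (t * (a i : ℝ) + ξ * (b i : ℝ))).re =
      ∑ i ∈ S, Real.cos (2 * Real.pi * (t * (a i : ℝ) + ξ * (b i : ℝ))) := by
    intro ξ
    rw [Complex.re_sum]
    exact Finset.sum_congr rfl (fun i _ => e_re _)
  simp_rw [h1]
  rw [intervalIntegral.integral_finsetSum (fun i _ => by apply Continuous.intervalIntegrable; fun_prop)]
  simp_rw [cos_int]
  rw [← Finset.sum_filter]

theorem dbl {ι : Type*} (S : Finset ι) (a b : ι → ℤ) :
    ∫ t in (0 : ℝ)..1, ∫ ξ in (0 : ℝ)..1, (∑ i ∈ S, e (t * (a i : ℝ) + ξ * (b i : ℝ))).re =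
      ((S.filter (fun i => a i = 0 ∧ b i = 0)).card : ℝ) := by
  simp_rw [inner]
  rw [intervalIntegral.integral_finsetSum (fun i _ => by apply Continuous.intervalIntegrable; fun_prop)]
  have h1 : ∀ n : ℤ, ∫ t in (0 : ℝ)..1, Real.cos (2 * Real.pi * (t * (n : ℝ))) = if n = 0 then (1 : ℝ) else 0 := by
    intro n
    have := cos_int 0 n
    simp only [zero_add, mul_zero, Real.cos_zero] at this
    exact this
  simp_rw [h1]
  rw [← Finset.sum_filter, Finset.sum_const, nsmul_eq_mul, mul_one, Finset.filter_filter]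
  congr 2
  ext i
  simp only [Finset.mem_filter]
  tauto

theorem cont_xi {ι : Type*} (S : Finset ι) (a b : ι → ℤ) (t : ℝ) : Continuous (fun ξ : ℝ =>
    (∑ i ∈ S, e (t * (a i : ℝ) + ξ * (b i : ℝ))).re) := by
  apply Complex.continuous_re.comp
  apply continuous_finsetSum
  intro i _
  exact e_cont.comp (by fun_prop)

theorem mono {ι κ : Type*} (S : Finset ι) (T : Finset κ) (a b : ι → ℤ) (c d : κ → ℤ) (K : ℝ)
    (h : ∀ t ξ : ℝ, (∑ i ∈ S, e (t * (a i : ℝ) + ξ * (b i : ℝ))).re ≤
      K * (∑ i ∈ T, e (t * (c i : ℝ) + ξ * (d i : ℝ))).re) :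
    ((S.filter (fun i => a i = 0 ∧ b i = 0)).card : ℝ) ≤ K * ((T.filter (fun i => c i = 0 ∧ d i = 0)).card : ℝ) := by
  rw [← dbl, ← dbl, ← intervalIntegral.integral_const_mul]
  apply intervalIntegral.integral_mono_on zero_le_one
  · simp_rw [inner]
    apply Continuous.intervalIntegrable
    fun_prop
  · simp_rw [inner]
    apply Continuous.intervalIntegrable
    fun_prop
  · intro t _
    rw [← intervalIntegral.integral_const_mul]
    apply intervalIntegral.integral_mono_on zero_le_one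
    · exact (cont_xi S a b t).intervalIntegrable _ _
    · exact ((cont_xi T c d t).const_mul K).intervalIntegrable _ _
    · intro ξ _
      exact h t ξ

end Pool.Agent.Y980.MW
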