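import Pool.Agent.Y980.MW.Dbl

/-! # the recursion for the number of solutions of the system of degrees `1` and `k` -/

set_option autoImplicit false

open Finset MeasureTheory

namespace Pool.Agent.Y980.MW

open Pool.Agent.W928.MW (e sm e_add e_norm e_sub_re e_cont sm_le)
open Pool.Agent.TH181.MW (tup e_sum e_conj J Lam LS AA ph TT card_H TT_im weyl' ph_id Lam_zero Lam_nonzero AA_sub)

/-- difference of the sums of `k`-th powers -/
def Aa {s : ℕ} (k : ℕ) (z : (Fin s → ℕ) × (Fin s → ℕ)) : ℤ :=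
  ((∑ i, z.1 i ^ k : ℕ) : ℤ) - ((∑ i, z.2 i ^ k : ℕ) : ℤ)

/-- difference of the sums -/
def Bb {s : ℕ} (z : (Fin s → ℕ) × (Fin s → ℕ)) : ℤ :=
  ((∑ i, z.1 i : ℕ) : ℤ) - ((∑ i, z.2 i : ℕ) : ℤ)

theorem J_eq (s k N : ℕ) : J s k N =
    (((tup s N) ×ˢ (tup s N)).filter (fun z => Aa k z = 0 ∧ Bb z = 0)).card := by
  unfold Pool.Agent.TH181.MW.J Aa Bb
  congr 1
  apply Finset.filter_congr
  intro z _
  constructor
  · rintro ⟨h1, h2⟩
    rw [h1, h2]; simp
  · rintro ⟨h1, h2⟩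
    have h3 := sub_eq_zero.mp h1
    have h4 := sub_eq_zero.mp h2
    exact ⟨by exact_mod_cast h4, by exact_mod_cast h3⟩

theorem sm_pow' (s k N : ℕ) (t ξ : ℝ) : sm k N t ξ ^ s =
    ∑ z ∈ tup s N, e (t * ((∑ i, z i ^ k : ℕ) : ℝ) + ξ * ((∑ i, z i : ℕ) : ℝ)) := by
  unfold Pool.Agent.W928.MW.sm Pool.Agent.TH181.MW.tup
  rw [Finset.sum_pow']
  apply Finset.sum_congr rfl
  intro z _
  rw [← e_sum]
  congr 1
  push_cast
  rw [Finset.mul_sum, Finset.mul_sum, ← Finset.sum_add_distrib]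

theorem sm_norm (s k N : ℕ) (t ξ : ℝ) : ((‖sm k N t ξ‖ ^ (2 * s) : ℝ) : ℂ) =
    ∑ z ∈ (tup s N) ×ˢ (tup s N), e (t * (Aa k z : ℝ) + ξ * (Bb z : ℝ)) := by
  have h1 : ‖sm k N t ξ‖ ^ (2 * s) = ‖sm k N t ξ ^ s‖ ^ 2 := by
    rw [norm_pow, ← pow_mul, mul_comm]
  have h2 : ((‖sm k N t ξ ^ s‖ ^ 2 : ℝ) : ℂ) = (sm k N t ξ ^ s) * (starRingEnd ℂ) (sm k N t ξ ^ s) := by
    rw [Complex.mul_conj, Complex.normSq_eq_norm_sq]
  rw [h1, h2, sm_pow', map_sum, Finset.sum_mul_sum, Finset.sum_product]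
  apply Finset.sum_congr rfl
  intro z _
  apply Finset.sum_congr rfl
  intro w _
  rw [e_conj, ← e_add]
  congr 1
  unfold Aa Bb
  push_cast
  ring

/-- the index of the differenced sum -/
theorem TT_Lam (k N j : ℕ) (hj : 2 ≤ j) (t ξ : ℝ) :
    ∑ l ∈ LS (Icc (-(N : ℤ)) N) j, TT k N t ξ l =
      ∑ w ∈ Lam N j, e (t * ((ph (fun n => n ^ k) w.1 w.2 : ℤ) : ℝ) + ξ * ((0 : ℤ) : ℝ)) := by
  unfold Pool.Agent.TH181.MW.Lam Pool.Agent.TH181.MW.TT
  rw [Finset.sum_sigma]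
  apply Finset.sum_congr rfl
  intro l hl
  apply Finset.sum_congr rfl
  intro n _
  rw [Pool.Agent.TH181.MW.mem_LS] at hl
  rw [ph_id l (by omega) n]

theorem hua_int (s k N j : ℕ) : (J (s + 2 ^ (j + 1)) k N : ℝ) ≤
    (2 * (N : ℝ) + 1) ^ (2 ^ (j + 2) - (j + 2) - 1) *
      (((((tup s N) ×ˢ (tup s N)) ×ˢ (Lam N (j + 2))).filter
        (fun x => Aa k x.1 + ph (fun n => n ^ k) x.2.1 x.2.2 = 0 ∧ Bb x.1 + 0 = 0)).card : ℝ) := by
  rw [J_eq]
  apply mono
  intro t ξ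
  rw [← sm_norm, Complex.ofReal_re]
  have h1 : ‖sm k N t ξ‖ ^ (2 * (s + 2 ^ (j + 1))) = ‖sm k N t ξ‖ ^ (2 * s) * ‖sm k N t ξ‖ ^ (2 ^ (j + 1 + 1)) := by
    rw [← pow_add]
    congr 1
    rw [pow_succ 2 (j + 1)]; ring
  have h2 := weyl' k N (j + 1) t ξ
  have h3 : (∑ i ∈ ((tup s N) ×ˢ (tup s N)) ×ˢ (Lam N (j + 2)),
      e (t * ((Aa k i.1 + ph (fun n => n ^ k) i.2.1 i.2.2 : ℤ) : ℝ) + ξ * ((Bb i.1 + 0 : ℤ) : ℝ))).re =
      ‖sm k N t ξ‖ ^ (2 * s) * (∑ l ∈ LS (Icc (-(N : ℤ)) N) (j + 2), TT k N t ξ l).re := by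
    have h4 : (∑ i ∈ ((tup s N) ×ˢ (tup s N)) ×ˢ (Lam N (j + 2)),
        e (t * ((Aa k i.1 + ph (fun n => n ^ k) i.2.1 i.2.2 : ℤ) : ℝ) + ξ * ((Bb i.1 + 0 : ℤ) : ℝ))) =
        ((‖sm k N t ξ‖ ^ (2 * s) : ℝ) : ℂ) * (∑ l ∈ LS (Icc (-(N : ℤ)) N) (j + 2), TT k N t ξ l) := by
      rw [sm_norm, TT_Lam k N (j + 2) (by omega), Finset.sum_mul_sum, Finset.sum_product]
      apply Finset.sum_congr rfl
      intro z _
      apply Finset.sum_congr rfl
      intro w _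
      rw [← e_add]
      congr 1
      push_cast
      ring
    rw [h4, Complex.re_ofReal_mul]
  rw [h3, h1]
  calc ‖sm k N t ξ‖ ^ (2 * s) * ‖sm k N t ξ‖ ^ (2 ^ (j + 1 + 1))
      ≤ ‖sm k N t ξ‖ ^ (2 * s) * ((2 * (N : ℝ) + 1) ^ (2 ^ (j + 1 + 1) - (j + 1 + 1) - 1) *
        (∑ l ∈ LS (Icc (-(N : ℤ)) N) (j + 1 + 1), TT k N t ξ l).re) :=
        mul_le_mul_of_nonneg_left h2 (by positivity)
    _ = _ := by ring

/-- pairs of tuples with equal sums -/
theorem card_B (s N : ℕ) : (((tup (s + 1) N) ×ˢ (tup (s + 1) N)).filter (fun z => Bb z = 0)).card ≤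
    N ^ (2 * s + 1) := by
  have h1 : (((tup (s + 1) N) ×ˢ (tup s N))).card = N ^ (2 * s + 1) := by
    rw [Finset.card_product]
    unfold Pool.Agent.TH181.MW.tup
    rw [Fintype.card_piFinset_const, Fintype.card_piFinset_const]
    simp only [Nat.card_Icc, Nat.add_sub_cancel]
    rw [← pow_add]
    congr 1
    ring
  rw [← h1]
  apply Finset.card_le_card_of_injOn (fun z : (Fin (s + 1) → ℕ) × (Fin (s + 1) → ℕ) =>
    ((z.1, fun i : Fin s => z.2 i.succ) : (Fin (s + 1) → ℕ) × (Fin s → ℕ)))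
  · intro z hz
    rw [Finset.mem_coe, Finset.mem_filter, Finset.mem_product] at hz
    simp only [Finset.coe_product, Set.mem_prod, Finset.mem_coe]
    refine ⟨hz.1.1, ?_⟩
    have h2 := hz.1.2
    unfold Pool.Agent.TH181.MW.tup at h2 ⊢
    rw [Fintype.mem_piFinset] at h2 ⊢
    intro i
    exact h2 i.succ
  · intro z hz w hw hzw
    rw [Finset.mem_coe, Finset.mem_filter] at hz hw
    have h2 := hz.2
    have h3 := hw.2
    simp only [Prod.mk.injEq] at hzw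
    obtain ⟨h4, h5⟩ := hzw
    unfold Bb at h2 h3
    rw [Fin.sum_univ_succ (fun i => z.2 i)] at h2
    rw [Fin.sum_univ_succ (fun i => w.2 i)] at h3
    have h6 : ∀ i : Fin s, z.2 i.succ = w.2 i.succ := fun i => congrFun h5 i
    have h7 : ∑ i : Fin s, z.2 i.succ = ∑ i : Fin s, w.2 i.succ := Finset.sum_congr rfl (fun i _ => h6 i)
    have h8 : ∑ i, z.1 i = ∑ i, w.1 i := by rw [h4]
    rw [h7, h8] at h2
    push_cast at h2 h3
    have h9 : z.2 0 = w.2 0 := by omega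
    apply Prod.ext h4
    funext i
    refine Fin.cases h9 (fun i => h6 i) i

theorem count (s k N j D : ℕ) (hj : j < k)
    (hD : ∀ m : ℕ, m ≠ 0 → m ≤ (s + 1) * N ^ k → m.divisors.card ≤ D) :
    ((((tup (s + 1) N) ×ˢ (tup (s + 1) N)) ×ˢ (Lam N j)).filter
        (fun x => Aa k x.1 + ph (fun n => n ^ k) x.2.1 x.2.2 = 0 ∧ Bb x.1 + 0 = 0)).card ≤
      J (s + 1) k N * ((j + k) * (2 * N + 1) ^ j) + N ^ (2 * s + 1) * ((2 * D) ^ j * k) := by
  classical
  set P := (tup (s + 1) N) ×ˢ (tup (s + 1) N) with hP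
  have hsub : ((P ×ˢ (Lam N j)).filter
        (fun x => Aa k x.1 + ph (fun n => n ^ k) x.2.1 x.2.2 = 0 ∧ Bb x.1 + 0 = 0)) ⊆
      ((P.filter (fun z => Aa k z = 0 ∧ Bb z = 0)) ×ˢ ((Lam N j).filter (fun w => ph (fun n => n ^ k) w.1 w.2 = 0))) ∪
      ((P.filter (fun z => Bb z = 0 ∧ Aa k z ≠ 0)).sigma
        (fun z => (Lam N j).filter (fun w => ph (fun n => n ^ k) w.1 w.2 = -Aa k z))).image
          (fun y => (y.1, y.2)) := by
    intro x hx
    rw [Finset.mem_filter, Finset.mem_product] at hx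
    obtain ⟨⟨h1, h2⟩, h3, h4⟩ := hx
    rw [add_zero] at h4
    rw [Finset.mem_union]
    by_cases h0 : Aa k x.1 = 0
    · left
      rw [Finset.mem_product, Finset.mem_filter, Finset.mem_filter]
      rw [h0, zero_add] at h3
      exact ⟨⟨h1, h0, h4⟩, h2, h3⟩
    · right
      rw [Finset.mem_image]
      refine ⟨⟨x.1, x.2⟩, ?_, rfl⟩
      rw [Finset.mem_sigma, Finset.mem_filter, Finset.mem_filter]
      exact ⟨⟨h1, h4, h0⟩, h2, by simp only; omega⟩
  refine (Finset.card_le_card hsub).trans ((Finset.card_union_le _ _).trans ?_)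
  apply Nat.add_le_add
  · rw [Finset.card_product, ← J_eq]
    exact Nat.mul_le_mul_left _ (Lam_zero k N j hj)
  · refine Finset.card_image_le.trans ?_
    rw [Finset.card_sigma]
    calc ∑ z ∈ P.filter (fun z => Bb z = 0 ∧ Aa k z ≠ 0),
          ((Lam N j).filter (fun w => ph (fun n => n ^ k) w.1 w.2 = -Aa k z)).card
        ≤ ∑ _z ∈ P.filter (fun z => Bb z = 0 ∧ Aa k z ≠ 0), (2 * D) ^ j * k := by
          apply Finset.sum_le_sum
          intro z hz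
          rw [Finset.mem_filter] at hz
          apply Lam_nonzero k N j D hj _ (neg_ne_zero.mpr hz.2.2)
          apply hD
          · rw [Int.natAbs_neg]
            exact Int.natAbs_ne_zero.mpr hz.2.2
          · have h1 : ∀ y ∈ tup (s + 1) N, ∑ i, y i ^ k ≤ (s + 1) * N ^ k := by
              intro y hy
              unfold Pool.Agent.TH181.MW.tup at hy
              rw [Fintype.mem_piFinset] at hy
              calc ∑ i, y i ^ k ≤ ∑ _i : Fin (s + 1), N ^ k :=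
                    Finset.sum_le_sum (fun i _ => Nat.pow_le_pow_left (Finset.mem_Icc.mp (hy i)).2 k)
                _ = (s + 1) * N ^ k := by simp
            rw [hP, Finset.mem_product] at hz
            have h2 := h1 _ hz.1.1
            have h3 := h1 _ hz.1.2
            unfold Aa
            omega
      _ = (P.filter (fun z => Bb z = 0 ∧ Aa k z ≠ 0)).card * ((2 * D) ^ j * k) := by
          rw [Finset.sum_const, smul_eq_mul]
      _ ≤ N ^ (2 * s + 1) * ((2 * D) ^ j * k) := by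
          apply Nat.mul_le_mul_right
          refine le_trans (Finset.card_le_card ?_) (card_B s N)
          intro z hz
          rw [Finset.mem_filter] at hz ⊢
          exact ⟨hz.1, hz.2.1⟩

end Pool.Agent.Y980.MW
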