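import Pool.Agent.Y980.MW.Rec

/-! # the sixth moment for odd `k`, and the chain of moments -/

set_option autoImplicit false

open Finset MeasureTheory

namespace Pool.Agent.Y980.MW

open Pool.Agent.TH181.MW (tup J)

theorem pow_lt (k : ℕ) (hk : 2 ≤ k) (a b c : ℕ) (ha : 1 ≤ a) (hb : 1 ≤ b) :
    a ^ k + b ^ k + c ^ k < (a + b + c) ^ k := by
  obtain ⟨l, rfl⟩ : ∃ l, k = l + 2 := ⟨k - 2, by omega⟩
  have h1 : a ^ (l + 1) < (a + b + c) ^ (l + 1) := Nat.pow_lt_pow_left (by omega) (by omega)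
  have h2 : b ^ (l + 1) ≤ (a + b + c) ^ (l + 1) := Nat.pow_le_pow_left (by omega) _
  have h3 : c ^ (l + 1) ≤ (a + b + c) ^ (l + 1) := Nat.pow_le_pow_left (by omega) _
  have h4 : a ^ (l + 2) < a * (a + b + c) ^ (l + 1) := by
    rw [pow_succ a (l + 1), mul_comm]
    exact Nat.mul_lt_mul_of_pos_left h1 (by omega)
  have h5 : b ^ (l + 2) ≤ b * (a + b + c) ^ (l + 1) := by
    rw [pow_succ b (l + 1), mul_comm]
    exact Nat.mul_le_mul_left _ h2
  have h6 : c ^ (l + 2) ≤ c * (a + b + c) ^ (l + 1) := by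
    rw [pow_succ c (l + 1), mul_comm]
    exact Nat.mul_le_mul_left _ h3
  calc a ^ (l + 2) + b ^ (l + 2) + c ^ (l + 2) <
        a * (a + b + c) ^ (l + 1) + b * (a + b + c) ^ (l + 1) + c * (a + b + c) ^ (l + 1) := by omega
    _ = (a + b + c) ^ (l + 2) := by ring

theorem dvd_diff (k : ℕ) (ho : Odd k) (a b c : ℕ) :
    ((a + b : ℕ) : ℤ) ∣ ((a + b + c : ℕ) : ℤ) ^ k - ((a : ℤ) ^ k + (b : ℤ) ^ k + (c : ℤ) ^ k) := by
  have h1 : ((a + b : ℕ) : ℤ) ∣ (a : ℤ) ^ k + (b : ℤ) ^ k := by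
    push_cast
    exact ho.add_dvd_pow_add_pow _ _
  have h2 : ((a + b : ℕ) : ℤ) ∣ ((a + b + c : ℕ) : ℤ) ^ k - (c : ℤ) ^ k := by
    have := sub_dvd_pow_sub_pow ((a + b + c : ℕ) : ℤ) (c : ℤ) k
    have h3 : ((a + b + c : ℕ) : ℤ) - (c : ℤ) = ((a + b : ℕ) : ℤ) := by push_cast; ring
    rwa [h3] at this
  have h4 := dvd_sub h2 h1
  have h5 : ((a + b + c : ℕ) : ℤ) ^ k - ((a : ℤ) ^ k + (b : ℤ) ^ k + (c : ℤ) ^ k) =
      ((a + b + c : ℕ) : ℤ) ^ k - (c : ℤ) ^ k - ((a : ℤ) ^ k + (b : ℤ) ^ k) := by ring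
  rwa [h5]

theorem fiber (k N D : ℕ) (hk : 2 ≤ k) (ho : Odd k) (hD : ∀ m : ℕ, m ≠ 0 → m ≤ 3 ^ k * N ^ k → m.divisors.card ≤ D)
    (x : Fin 3 → ℕ) (hx : x ∈ tup 3 N) :
    ((tup 3 N).filter (fun y => ∑ i, x i = ∑ i, y i ∧ ∑ i, x i ^ k = ∑ i, y i ^ k)).card ≤ D * D := by
  classical
  have hx' := (mem_tup 3 N x).mp hx
  set S : ℕ := x 0 + x 1 + x 2 with hS
  set P : ℕ := x 0 ^ k + x 1 ^ k + x 2 ^ k with hP
  have hlt : P < S ^ k := pow_lt k hk _ _ _ (hx' 0).1 (hx' 1).1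
  set Δ : ℕ := S ^ k - P with hΔ
  have hΔ0 : Δ ≠ 0 := by omega
  have hΔle : Δ ≤ 3 ^ k * N ^ k := by
    rw [← mul_pow]
    refine (Nat.sub_le _ _).trans (Nat.pow_le_pow_left ?_ k)
    have := (hx' 0).2
    have := (hx' 1).2
    have := (hx' 2).2
    omega
  have hcard := hD Δ hΔ0 hΔle
  have hΔz : ((Δ : ℕ) : ℤ) = (S : ℤ) ^ k - (P : ℤ) := by
    rw [hΔ, Nat.cast_sub hlt.le]
    push_cast
    rfl
  have key : ((tup 3 N).filter (fun y => ∑ i, x i = ∑ i, y i ∧ ∑ i, x i ^ k = ∑ i, y i ^ k)).card ≤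
      (Δ.divisors ×ˢ Δ.divisors).card := by
    apply Finset.card_le_card_of_injOn (fun y : Fin 3 → ℕ => (y 0 + y 1, y 0 + y 2))
    · intro y hy
      rw [Finset.mem_coe, Finset.mem_filter] at hy
      obtain ⟨_, h1, h2⟩ := hy
      simp only [Fin.sum_univ_three] at h1 h2
      rw [Finset.mem_coe, Finset.mem_product, Nat.mem_divisors, Nat.mem_divisors]
      have g1 : (S : ℤ) = ((y 0 + y 1 + y 2 : ℕ) : ℤ) := by rw [hS, h1]
      have g2 : (P : ℤ) = (y 0 : ℤ) ^ k + (y 1 : ℤ) ^ k + (y 2 : ℤ) ^ k := by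
        rw [hP, h2]; push_cast; ring
      refine ⟨⟨?_, hΔ0⟩, ?_, hΔ0⟩
      · have := dvd_diff k ho (y 0) (y 1) (y 2)
        rw [← g1, ← g2, ← hΔz] at this
        exact_mod_cast this
      · have := dvd_diff k ho (y 0) (y 2) (y 1)
        have g3 : ((y 0 + y 2 + y 1 : ℕ) : ℤ) = (S : ℤ) := by rw [g1]; push_cast; ring
        have g4 : (y 0 : ℤ) ^ k + (y 2 : ℤ) ^ k + (y 1 : ℤ) ^ k = (P : ℤ) := by rw [g2]; ring
        rw [g3, g4, ← hΔz] at this
        exact_mod_cast this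
    · intro y hy w hw hyw
      rw [Finset.mem_coe, Finset.mem_filter] at hy hw
      have h1 := hy.2.1
      have h2 := hw.2.1
      simp only [Fin.sum_univ_three] at h1 h2
      simp only [Prod.mk.injEq] at hyw
      obtain ⟨h3, h4⟩ := hyw
      have e0 : y 0 = w 0 := by omega
      have e1 : y 1 = w 1 := by omega
      have e2 : y 2 = w 2 := by omega
      funext i
      fin_cases i
      · exact e0
      · exact e1
      · exact e2
  refine key.trans ?_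
  rw [Finset.card_product]
  exact Nat.mul_le_mul hcard hcard

/-- sixth moment -/
theorem base3 (k : ℕ) (hk : 2 ≤ k) (ho : Odd k) : HB 3 3 k := by
  intro δ hδ
  obtain ⟨C, hC, hdiv⟩ := div_uniform (3 ^ k) k (Nat.one_le_pow _ _ (by norm_num)) (δ / 2) (by positivity)
  refine ⟨C ^ 2, by positivity, fun N hN => ?_⟩
  have hN' : (1 : ℝ) ≤ (N : ℝ) := by exact_mod_cast hN
  have hN0 : (0 : ℝ) < (N : ℝ) := by linarith
  obtain ⟨D, hD1, hD2⟩ := hdiv N hN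
  have h1 : J 3 k N ≤ N ^ 3 * (D * D) := by
    classical
    unfold Pool.Agent.TH181.MW.J
    have h2 : ((tup 3 N ×ˢ tup 3 N).filter
        (fun z => ∑ i, z.1 i = ∑ i, z.2 i ∧ ∑ i, z.1 i ^ k = ∑ i, z.2 i ^ k)).card ≤
        ((tup 3 N).sigma (fun x => (tup 3 N).filter
          (fun y => ∑ i, x i = ∑ i, y i ∧ ∑ i, x i ^ k = ∑ i, y i ^ k))).card := by
      apply Finset.card_le_card_of_injOn (fun z => ⟨z.1, z.2⟩)
      · intro z hz
        rw [Finset.mem_coe, Finset.mem_filter, Finset.mem_product] at hz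
        rw [Finset.mem_coe, Finset.mem_sigma, Finset.mem_filter]
        exact ⟨hz.1.1, hz.1.2, hz.2⟩
      · intro z _ w _ hzw
        simp only [Sigma.mk.injEq, heq_eq_eq] at hzw
        exact Prod.ext hzw.1 hzw.2
    refine h2.trans ?_
    rw [Finset.card_sigma]
    calc _ ≤ ∑ _x ∈ tup 3 N, D * D := Finset.sum_le_sum (fun x hx => fiber k N D hk ho hD2 x hx)
      _ = N ^ 3 * (D * D) := by rw [Finset.sum_const, smul_eq_mul, tup_card]
  calc (J 3 k N : ℝ) ≤ (N : ℝ) ^ 3 * ((D : ℝ) * (D : ℝ)) := by exact_mod_cast h1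
    _ ≤ (N : ℝ) ^ 3 * ((C * (N : ℝ) ^ (δ / 2)) * (C * (N : ℝ) ^ (δ / 2))) := by gcongr
    _ = C ^ 2 * (N : ℝ) ^ (2 * ((3 : ℕ) : ℝ) - ((3 : ℕ) : ℝ) + δ) := by
        have e1 : (N : ℝ) ^ (2 * ((3 : ℕ) : ℝ) - ((3 : ℕ) : ℝ) + δ) =
            (N : ℝ) ^ 3 * ((N : ℝ) ^ (δ / 2) * (N : ℝ) ^ (δ / 2)) := by
          rw [← Real.rpow_natCast (N : ℝ) 3, ← Real.rpow_add hN0, ← Real.rpow_add hN0]
          congr 1
          push_cast; ring
        rw [e1]; ring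

/-- the defect in the number of variables -/
def kap (k : ℕ) : ℕ := if Odd k then 1 else 2

theorem base (k : ℕ) (hk : 3 ≤ k) : HB (2 + kap k) 3 k := by
  unfold kap
  split_ifs with ho
  · exact base3 k (by omega) ho
  · exact step 1 2 k 0 (by omega) (by omega) (base2 k (by omega))

theorem chain (k : ℕ) (hk : 3 ≤ k) (m : ℕ) (hm : 3 ≤ m) (hmk : m ≤ k + 1) : HB (2 ^ (m - 2) + kap k) m k := by
  induction m, hm using Nat.le_induction with
  | base => exact base k hk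
  | succ m hm ih =>
    obtain ⟨r, rfl⟩ : ∃ r, m = r + 3 := ⟨m - 3, by omega⟩
    have h1 := ih (by omega)
    have hs : 2 ^ (r + 3 - 2) + kap k = (2 ^ (r + 1) + kap k - 1) + 1 := by
      have : 1 ≤ 2 ^ (r + 1) := Nat.one_le_two_pow
      have e : r + 3 - 2 = r + 1 := by omega
      rw [e]; omega
    rw [hs] at h1
    have h2 := step _ (r + 3) k r (by omega) (by omega) h1
    have h3 : 2 ^ (r + 1) + kap k - 1 + 1 + 2 ^ (r + 1) = 2 ^ (r + 3 + 1 - 2) + kap k := by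
      have : 1 ≤ 2 ^ (r + 1) := Nat.one_le_two_pow
      have e : r + 3 + 1 - 2 = r + 1 + 1 := by omega
      rw [e, pow_succ 2 (r + 1)]
      omega
    rw [h3] at h2
    exact h2

end Pool.Agent.Y980.MW
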