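import Pool.Agent.Y980.MW.Hua
import Pool.Agent.W225.MWDIO

/-! # bounds for the number of solutions of the system of degrees `1` and `k` -/

set_option autoImplicit false

open Finset MeasureTheory

namespace Pool.Agent.Y980.MW

open Pool.Agent.W928.MW (e sm e_add e_norm e_sub_re e_cont sm_le)
open Pool.Agent.TH181.MW (tup J Lam LS AA ph TT two_pow_ge)

/-- the bound `N^(2s-m+δ)` for the number of solutions -/
def HB (s m k : ℕ) : Prop := ∀ δ : ℝ, 0 < δ → ∃ C : ℝ, 0 < C ∧ ∀ N : ℕ, 1 ≤ N →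
  (J s k N : ℝ) ≤ C * (N : ℝ) ^ (2 * (s : ℝ) - (m : ℝ) + δ)

theorem div_uniform (c k : ℕ) (hc : 1 ≤ c) (δ : ℝ) (hδ : 0 < δ) : ∃ C : ℝ, 0 < C ∧ ∀ N : ℕ, 1 ≤ N →
    ∃ D : ℕ, (D : ℝ) ≤ C * (N : ℝ) ^ δ ∧ ∀ m : ℕ, m ≠ 0 → m ≤ c * N ^ k → m.divisors.card ≤ D := by
  set δ' : ℝ := δ / ((k : ℝ) + 1) with hδ'
  have hk : (0 : ℝ) < (k : ℝ) + 1 := by positivity
  have hδ'0 : 0 < δ' := by positivity
  obtain ⟨C, hC, h⟩ := Pool.Agent.Helper112.divisor_bound δ' hδ'0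
  refine ⟨C * (c : ℝ) ^ δ', by positivity, fun N hN => ?_⟩
  have hN' : (1 : ℝ) ≤ (N : ℝ) := by exact_mod_cast hN
  have hN0 : (0 : ℝ) < (N : ℝ) := by linarith
  refine ⟨⌊C * ((c * N ^ k : ℕ) : ℝ) ^ δ'⌋₊, ?_, ?_⟩
  · refine (Nat.floor_le (by positivity)).trans ?_
    push_cast
    rw [Real.mul_rpow (by positivity) (by positivity), ← mul_assoc]
    apply mul_le_mul_of_nonneg_left _ (by positivity)
    rw [← Real.rpow_natCast, ← Real.rpow_mul hN0.le]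
    apply Real.rpow_le_rpow_of_exponent_le hN'
    rw [hδ', mul_div_assoc', div_le_iff₀ hk]
    nlinarith
  · intro m hm hmle
    apply Nat.le_floor
    refine (h m (by omega)).trans ?_
    apply mul_le_mul_of_nonneg_left _ hC.le
    apply Real.rpow_le_rpow (by positivity) _ hδ'0.le
    exact_mod_cast hmle

theorem step (s m k j : ℕ) (hj : j + 2 < k) (hm : m ≤ j + 3) (h : HB (s + 1) m k) :
    HB (s + 1 + 2 ^ (j + 1)) (m + 1) k := by
  intro δ hδ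
  obtain ⟨C, hC, hJ⟩ := h δ hδ
  obtain ⟨C1, hC1, hdiv⟩ := div_uniform (s + 1) k (by omega) (δ / ((j : ℝ) + 2)) (by positivity)
  set E : ℕ := 2 ^ (j + 2) - (j + 2) - 1 with hE
  have hEr : (E : ℝ) = 2 ^ (j + 2) - ((j : ℝ) + 2) - 1 := by
    have h1 := two_pow_ge (j + 2)
    rw [hE, Nat.cast_sub (by omega), Nat.cast_sub (by omega)]
    push_cast
    ring
  refine ⟨3 ^ E * (C * (((j + 2 + k : ℕ) : ℝ) * 3 ^ (j + 2)) + (2 * C1) ^ (j + 2) * k), by positivity, ?_⟩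
  intro N hN
  have hN' : (1 : ℝ) ≤ (N : ℝ) := by exact_mod_cast hN
  have hN0 : (0 : ℝ) < (N : ℝ) := by linarith
  obtain ⟨D, hD1, hD2⟩ := hdiv N hN
  have h1 := hua_int (s + 1) k N j
  have h2 := count s k N (j + 2) D hj hD2
  have h2' : ((((((tup (s + 1) N) ×ˢ (tup (s + 1) N)) ×ˢ (Lam N (j + 2))).filter
        (fun x => Aa k x.1 + ph (fun n => n ^ k) x.2.1 x.2.2 = 0 ∧ Bb x.1 + 0 = 0)).card : ℕ) : ℝ) ≤
      (J (s + 1) k N : ℝ) * (((j + 2 + k : ℕ) : ℝ) * (2 * (N : ℝ) + 1) ^ (j + 2)) +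
        (N : ℝ) ^ (2 * s + 1) * ((2 * (D : ℝ)) ^ (j + 2) * k) := by
    exact_mod_cast h2
  refine h1.trans ?_
  set X : ℝ := (N : ℝ) with hX
  have h3 : 2 * X + 1 ≤ 3 * X := by linarith
  have hJN := hJ N hN
  -- the first term
  have t1 : (J (s + 1) k N : ℝ) * (((j + 2 + k : ℕ) : ℝ) * (2 * X + 1) ^ (j + 2)) ≤
      (C * (((j + 2 + k : ℕ) : ℝ) * 3 ^ (j + 2))) * X ^ (2 * (s : ℝ) + j + 4 - m + δ) := by
    have e1 : X ^ (2 * (s : ℝ) + j + 4 - m + δ) =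
        X ^ (2 * ((s + 1 : ℕ) : ℝ) - m + δ) * X ^ (j + 2) := by
      rw [← Real.rpow_natCast X (j + 2), ← Real.rpow_add hN0]
      congr 1
      push_cast; ring
    rw [e1]
    calc (J (s + 1) k N : ℝ) * (((j + 2 + k : ℕ) : ℝ) * (2 * X + 1) ^ (j + 2))
        ≤ (C * X ^ (2 * ((s + 1 : ℕ) : ℝ) - m + δ)) * (((j + 2 + k : ℕ) : ℝ) * (3 * X) ^ (j + 2)) := by
          gcongr
      _ = _ := by rw [mul_pow]; ring
  -- the second term
  have t2 : X ^ (2 * s + 1) * ((2 * (D : ℝ)) ^ (j + 2) * k) ≤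
      ((2 * C1) ^ (j + 2) * k) * X ^ (2 * (s : ℝ) + j + 4 - m + δ) := by
    have e2 : (X ^ (δ / ((j : ℝ) + 2))) ^ (j + 2) = X ^ δ := by
      rw [← Real.rpow_natCast, ← Real.rpow_mul hN0.le]
      congr 1
      push_cast
      field_simp
    have e3 : X ^ (2 * s + 1) * X ^ δ ≤ X ^ (2 * (s : ℝ) + j + 4 - m + δ) := by
      rw [← Real.rpow_natCast X (2 * s + 1), ← Real.rpow_add hN0]
      apply Real.rpow_le_rpow_of_exponent_le hN'
      have : (m : ℝ) ≤ (j : ℝ) + 3 := by exact_mod_cast hm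
      push_cast
      linarith
    calc X ^ (2 * s + 1) * ((2 * (D : ℝ)) ^ (j + 2) * k)
        ≤ X ^ (2 * s + 1) * ((2 * (C1 * X ^ (δ / ((j : ℝ) + 2)))) ^ (j + 2) * k) := by
          gcongr
      _ = ((2 * C1) ^ (j + 2) * k) * (X ^ (2 * s + 1) * X ^ δ) := by
          rw [show 2 * (C1 * X ^ (δ / ((j : ℝ) + 2))) = (2 * C1) * X ^ (δ / ((j : ℝ) + 2)) by ring, mul_pow, e2]
          ring
      _ ≤ _ := mul_le_mul_of_nonneg_left e3 (by positivity)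
  have e4 : X ^ (2 * ((s + 1 + 2 ^ (j + 1) : ℕ) : ℝ) - ((m + 1 : ℕ) : ℝ) + δ) =
      X ^ E * X ^ (2 * (s : ℝ) + j + 4 - m + δ) := by
    rw [← Real.rpow_natCast X E, ← Real.rpow_add hN0, hEr]
    congr 1
    push_cast
    rw [pow_succ 2 (j + 1)]
    ring
  rw [e4]
  calc (2 * X + 1) ^ E * _ ≤ (3 * X) ^ E * ((C * (((j + 2 + k : ℕ) : ℝ) * 3 ^ (j + 2))) *
        X ^ (2 * (s : ℝ) + j + 4 - m + δ) + ((2 * C1) ^ (j + 2) * k) * X ^ (2 * (s : ℝ) + j + 4 - m + δ)) := by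
        apply mul_le_mul (pow_le_pow_left₀ (by positivity) h3 E) (h2'.trans (add_le_add t1 t2)) (by positivity)
          (by positivity)
    _ = _ := by rw [mul_pow]; ring

theorem tup_card (s N : ℕ) : (tup s N).card = N ^ s := by
  unfold Pool.Agent.TH181.MW.tup
  rw [Fintype.card_piFinset_const]
  simp

theorem mem_tup (s N : ℕ) (y : Fin s → ℕ) : y ∈ tup s N ↔ ∀ i, 1 ≤ y i ∧ y i ≤ N := by
  unfold Pool.Agent.TH181.MW.tup
  rw [Fintype.mem_piFinset]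
  simp only [Finset.mem_Icc]

/-- fourth moment -/
theorem base2 (k : ℕ) (hk : 2 ≤ k) : HB 2 2 k := by
  intro δ hδ
  refine ⟨2, by norm_num, fun N hN => ?_⟩
  have hN' : (1 : ℝ) ≤ (N : ℝ) := by exact_mod_cast hN
  have h1 : J 2 k N ≤ 2 * N ^ 2 := by
    classical
    unfold Pool.Agent.TH181.MW.J
    have hsub : ((tup 2 N ×ˢ tup 2 N).filter
        (fun z => ∑ i, z.1 i = ∑ i, z.2 i ∧ ∑ i, z.1 i ^ k = ∑ i, z.2 i ^ k)) ⊆
        (tup 2 N).image (fun x => (x, x)) ∪ (tup 2 N).image (fun x => (x, ![x 1, x 0])) := by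
      intro z hz
      rw [Finset.mem_filter, Finset.mem_product, mem_tup, mem_tup] at hz
      obtain ⟨⟨h2, h3⟩, h4, h5⟩ := hz
      simp only [Fin.sum_univ_two] at h4 h5
      have h6 := Pool.Agent.W225.MWD.t k (z.1 0) (z.1 1) (z.2 0) (z.2 1) hk h4
      have h7 : ((z.1 0 : ℕ) : ℝ) ^ k + ((z.1 1 : ℕ) : ℝ) ^ k = ((z.2 0 : ℕ) : ℝ) ^ k + ((z.2 1 : ℕ) : ℝ) ^ k := by
        exact_mod_cast h5
      have h8 : ((z.1 0 : ℕ) : ℝ) ^ k + ((z.1 1 : ℕ) : ℝ) ^ k - ((z.2 0 : ℕ) : ℝ) ^ k - ((z.2 1 : ℕ) : ℝ) ^ k = 0 := by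
        linarith
      rw [h8, abs_zero] at h6
      have h9 : (0 : ℝ) < (max (max ((z.1 0 : ℕ) : ℝ) ((z.1 1 : ℕ) : ℝ)) (max ((z.2 0 : ℕ) : ℝ) ((z.2 1 : ℕ) : ℝ))) ^ (k - 2) := by
        apply pow_pos
        apply lt_of_lt_of_le _ ((le_max_left _ _).trans (le_max_left _ _))
        exact_mod_cast (h2 0).1
      have h10 : |((z.1 0 : ℕ) : ℝ) - ((z.2 0 : ℕ) : ℝ)| * |((z.1 0 : ℕ) : ℝ) - ((z.2 1 : ℕ) : ℝ)| = 0 := by
        have h11 : 0 ≤ |((z.1 0 : ℕ) : ℝ) - ((z.2 0 : ℕ) : ℝ)| * |((z.1 0 : ℕ) : ℝ) - ((z.2 1 : ℕ) : ℝ)| := by positivity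
        rcases h11.lt_or_eq with h12 | h12
        · exact absurd h6 (not_le.mpr (mul_pos h12 h9))
        · exact h12.symm
      rw [Finset.mem_union, Finset.mem_image, Finset.mem_image]
      rcases mul_eq_zero.mp h10 with h11 | h11
      · left
        have h12 : z.1 0 = z.2 0 := by
          have := sub_eq_zero.mp (abs_eq_zero.mp h11)
          exact_mod_cast this
        have h13 : z.1 1 = z.2 1 := by omega
        refine ⟨z.1, (mem_tup 2 N z.1).mpr h2, Prod.ext rfl ?_⟩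
        funext i
        fin_cases i
        · exact h12
        · exact h13
      · right
        have h12 : z.1 0 = z.2 1 := by
          have := sub_eq_zero.mp (abs_eq_zero.mp h11)
          exact_mod_cast this
        have h13 : z.1 1 = z.2 0 := by omega
        refine ⟨z.1, (mem_tup 2 N z.1).mpr h2, Prod.ext rfl ?_⟩
        funext i
        fin_cases i
        · simpa using h13
        · simpa using h12
    refine (Finset.card_le_card hsub).trans ((Finset.card_union_le _ _).trans ?_)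
    have h2 : ((tup 2 N).image (fun x => (x, x))).card ≤ N ^ 2 := Finset.card_image_le.trans (tup_card 2 N).le
    have h3 : ((tup 2 N).image (fun x => (x, ![x 1, x 0]))).card ≤ N ^ 2 :=
      Finset.card_image_le.trans (tup_card 2 N).le
    omega
  calc (J 2 k N : ℝ) ≤ 2 * (N : ℝ) ^ 2 := by exact_mod_cast h1
    _ ≤ 2 * (N : ℝ) ^ (2 * ((2 : ℕ) : ℝ) - ((2 : ℕ) : ℝ) + δ) := by
        apply mul_le_mul_of_nonneg_left _ (by norm_num)
        rw [← Real.rpow_natCast]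
        apply Real.rpow_le_rpow_of_exponent_le hN'
        push_cast
        linarith

end Pool.Agent.Y980.MW
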